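import Mathlib

/-! Pointwise estimate for the derivatives of a composition, with the two extreme terms of the
Faa di Bruno formula separated. -/

set_option autoImplicit false

open scoped ContDiff

namespace Pool.Agent.W692.DQ

theorem fdb (r : ℕ) (hr : 1 ≤ r) : ∃ C : ℝ, 0 ≤ C ∧ ∀ (E F G : Type) [NormedAddCommGroup E]
    [NormedSpace ℝ E] [NormedAddCommGroup F] [NormedSpace ℝ F] [NormedAddCommGroup G]
    [NormedSpace ℝ G] (g : F → G) (f : E → F), ContDiff ℝ ∞ g → ContDiff ℝ ∞ f →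
    ∀ (x : E) (A L : ℝ), 0 ≤ A → 1 ≤ L →
    (∀ j, 1 ≤ j → j < r → ‖iteratedFDeriv ℝ j g (f x)‖ ≤ A) →
    (∀ j, 1 ≤ j → j < r → ‖iteratedFDeriv ℝ j f x‖ ≤ L) →
    ‖iteratedFDeriv ℝ r (g ∘ f) x‖ ≤ ‖iteratedFDeriv ℝ r g (f x)‖ * ‖fderiv ℝ f x‖ ^ r +
      (if r = 1 then 0 else ‖fderiv ℝ g (f x)‖ * ‖iteratedFDeriv ℝ r f x‖) + C * A * L ^ r := by
  induction r, hr using Nat.le_induction with
  | base =>
    refine ⟨0, le_rfl, ?_⟩
    intro E F G _ _ _ _ _ _ g f hg hf x A L _ _ _ _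
    rw [norm_iteratedFDeriv_one, norm_iteratedFDeriv_one,
      fderiv_comp x (hg.contDiffAt.differentiableAt (by simp))
        (hf.contDiffAt.differentiableAt (by simp))]
    simp only [if_true, zero_mul, add_zero, pow_one]
    exact ContinuousLinearMap.opNorm_comp_le _ _
  | succ r hr ih =>
    obtain ⟨C, hC0, hC⟩ := ih
    refine ⟨C + 1 + ∑ i ∈ Finset.range (r + 1), (r.choose i : ℝ) * (i.factorial : ℝ),
      by positivity, ?_⟩
    intro E F G _ _ _ _ _ _ g f hg hf x A L hA hL hgA hfL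
    have hL0 : 0 ≤ L := by linarith
    have hdg : ContDiff ℝ ∞ (fderiv ℝ g) := hg.fderiv_right (by simp)
    have hdf : ContDiff ℝ ∞ (fderiv ℝ f) := hf.fderiv_right (by simp)
    have hcomp : ContDiff ℝ ∞ (fderiv ℝ g ∘ f) := hdg.comp hf
    have h1 : fderiv ℝ (g ∘ f) = fun y => ContinuousLinearMap.compL ℝ E F G
        ((fderiv ℝ g ∘ f) y) (fderiv ℝ f y) := by
      funext y
      rw [fderiv_comp y (hg.contDiffAt.differentiableAt (by simp))
        (hf.contDiffAt.differentiableAt (by simp))]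
      rfl
    rw [← norm_iteratedFDeriv_fderiv, h1]
    have h2 := ContinuousLinearMap.norm_iteratedFDeriv_le_of_bilinear_of_le_one
      (ContinuousLinearMap.compL ℝ E F G) hcomp hdf x (n := r) (by exact_mod_cast le_top)
      (ContinuousLinearMap.norm_compL_le ℝ E F G)
    refine h2.trans ?_
    obtain ⟨s, rfl⟩ : ∃ s, r = s + 1 := ⟨r - 1, by omega⟩
    rw [Finset.sum_range_succ', Finset.sum_range_succ]
    simp only [Nat.choose_zero_right, Nat.cast_one, one_mul, Nat.sub_zero,
      norm_iteratedFDeriv_zero, Function.comp_apply, Nat.choose_self]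
    rw [show s + 1 - (s + 1) = 0 by omega, norm_iteratedFDeriv_zero,
      norm_iteratedFDeriv_fderiv (n := s + 1) (f := f)]
    -- the top term
    have hT := hC E F (F →L[ℝ] G) (fderiv ℝ g) f hdg hf x A L hA hL (fun j h1 h2 => by
      rw [norm_iteratedFDeriv_fderiv]; exact hgA (j + 1) (by omega) (by omega))
      (fun j h1 h2 => hfL j h1 (by omega))
    rw [norm_iteratedFDeriv_fderiv, ← norm_iteratedFDeriv_one (f := fderiv ℝ g),
      norm_iteratedFDeriv_fderiv] at hT
    have hf1 : ‖fderiv ℝ f x‖ ≤ L := by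
      rw [← norm_iteratedFDeriv_one]
      exact hfL 1 le_rfl (by omega)
    have hLp : ∀ k ≤ s + 1 + 1, L ^ k ≤ L ^ (s + 1 + 1) := fun k hk => pow_le_pow_right₀ hL hk
    have hmid2 : (if s + 1 = 1 then (0 : ℝ) else
        ‖iteratedFDeriv ℝ (1 + 1) g (f x)‖ * ‖iteratedFDeriv ℝ (s + 1) f x‖) ≤ A * L := by
      split_ifs with h
      · positivity
      · exact mul_le_mul (hgA 2 (by norm_num) (by omega)) (hfL (s + 1) (by omega) (by omega))
          (norm_nonneg _) hA
    have hT2 : ‖iteratedFDeriv ℝ (s + 1) (fderiv ℝ g ∘ f) x‖ * ‖fderiv ℝ f x‖ ≤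
        ‖iteratedFDeriv ℝ (s + 1 + 1) g (f x)‖ * ‖fderiv ℝ f x‖ ^ (s + 1 + 1) +
          (C + 1) * A * L ^ (s + 1 + 1) := by
      calc _ ≤ (‖iteratedFDeriv ℝ (s + 1 + 1) g (f x)‖ * ‖fderiv ℝ f x‖ ^ (s + 1) +
            A * L + C * A * L ^ (s + 1)) * ‖fderiv ℝ f x‖ := by
            refine mul_le_mul_of_nonneg_right (hT.trans ?_) (norm_nonneg _)
            gcongr
        _ = ‖iteratedFDeriv ℝ (s + 1 + 1) g (f x)‖ * ‖fderiv ℝ f x‖ ^ (s + 1 + 1) +
            (A * L * ‖fderiv ℝ f x‖ + C * A * L ^ (s + 1) * ‖fderiv ℝ f x‖) := by ring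
        _ ≤ ‖iteratedFDeriv ℝ (s + 1 + 1) g (f x)‖ * ‖fderiv ℝ f x‖ ^ (s + 1 + 1) +
            (A * L * L + C * A * L ^ (s + 1) * L) := by gcongr
        _ ≤ _ := by
            have e1 : A * L * L ≤ A * L ^ (s + 1 + 1) := by
              have := hLp 2 (by omega)
              calc A * L * L = A * L ^ 2 := by ring
                _ ≤ _ := by gcongr
            have e2 : C * A * L ^ (s + 1) * L = C * A * L ^ (s + 1 + 1) := by ring
            rw [e2]
            nlinarith [e1]
    -- the middle terms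
    have hM : ∑ i ∈ Finset.range s, ((s + 1).choose (i + 1) : ℝ) *
        ‖iteratedFDeriv ℝ (i + 1) (fderiv ℝ g ∘ f) x‖ *
        ‖iteratedFDeriv ℝ (s + 1 - (i + 1)) (fderiv ℝ f) x‖ ≤
        (∑ i ∈ Finset.range (s + 1 + 1), ((s + 1).choose i : ℝ) * (i.factorial : ℝ)) *
          A * L ^ (s + 1 + 1) := by
      have e1 : ∀ i ∈ Finset.range s, ((s + 1).choose (i + 1) : ℝ) *
          ‖iteratedFDeriv ℝ (i + 1) (fderiv ℝ g ∘ f) x‖ *
          ‖iteratedFDeriv ℝ (s + 1 - (i + 1)) (fderiv ℝ f) x‖ ≤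
          ((s + 1).choose (i + 1) : ℝ) * ((i + 1).factorial : ℝ) * (A * L ^ (s + 1 + 1)) := by
        intro i hi
        rw [Finset.mem_range] at hi
        have e2 : ‖iteratedFDeriv ℝ (i + 1) (fderiv ℝ g ∘ f) x‖ ≤
            (i + 1).factorial * A * L ^ (i + 1) := by
          refine norm_iteratedFDeriv_comp_le hdg hf (by exact_mod_cast le_top) x ?_ ?_
          · intro j hj
            rw [norm_iteratedFDeriv_fderiv]
            exact hgA (j + 1) (by omega) (by omega)
          · intro j h1 h2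
            exact (hfL j h1 (by omega)).trans (le_self_pow₀ hL (by omega))
        have e3 : ‖iteratedFDeriv ℝ (s + 1 - (i + 1)) (fderiv ℝ f) x‖ ≤ L := by
          rw [norm_iteratedFDeriv_fderiv]
          exact hfL _ (by omega) (by omega)
        calc _ ≤ ((s + 1).choose (i + 1) : ℝ) * ((i + 1).factorial * A * L ^ (i + 1)) * L := by
              gcongr
          _ = ((s + 1).choose (i + 1) : ℝ) * ((i + 1).factorial : ℝ) * (A * L ^ (i + 2)) := by
              ring
          _ ≤ _ := by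
              have := hLp (i + 2) (by omega)
              gcongr
      refine (Finset.sum_le_sum e1).trans ?_
      rw [← Finset.sum_mul, mul_assoc]
      refine mul_le_mul_of_nonneg_right ?_ (by positivity)
      rw [Finset.sum_range_succ', Finset.sum_range_succ]
      have p1 : (0 : ℝ) ≤ ((s + 1).choose (s + 1) : ℝ) * ((s + 1).factorial : ℝ) := by positivity
      have p2 : (0 : ℝ) ≤ ((s + 1).choose 0 : ℝ) * ((0 : ℕ).factorial : ℝ) := by positivity
      linarith
    rw [if_neg (by omega)]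
    have hfin : (C + 1 + ∑ i ∈ Finset.range (s + 1 + 1), ((s + 1).choose i : ℝ) *
        (i.factorial : ℝ)) * A * L ^ (s + 1 + 1) = (C + 1) * A * L ^ (s + 1 + 1) +
        (∑ i ∈ Finset.range (s + 1 + 1), ((s + 1).choose i : ℝ) * (i.factorial : ℝ)) *
          A * L ^ (s + 1 + 1) := by ring
    rw [hfin]
    linarith

end Pool.Agent.W692.DQ
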