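import Pool.Agent.W133.DQ.StB
import Pool.Agent.W692.DQ.Fdb

/-! Estimates for the displacement of the inverse. -/

set_option autoImplicit false

open scoped ContDiff
open Pool.Agent.W133.DQ

namespace Pool.Agent.W692.DQ

/-- the map `p ↦ p + (U p, 0)` -/
def GG (U : P2 → ℝ) (p : P2) : P2 := (p.1 + U p, p.2)

theorem norm_inl : ‖ContinuousLinearMap.inl ℝ ℝ ℝ‖ ≤ 1 := by
  refine ContinuousLinearMap.opNorm_le_bound _ zero_le_one fun x => ?_
  rw [one_mul, ContinuousLinearMap.inl_apply, Prod.norm_def]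
  simp

theorem GG_eq (U : P2 → ℝ) : GG U = fun p => p + ContinuousLinearMap.inl ℝ ℝ ℝ (U p) := by
  funext p
  rw [ContinuousLinearMap.inl_apply]
  unfold GG
  ext <;> simp

theorem GG_smooth {U : P2 → ℝ} (hU : ContDiff ℝ ∞ U) : ContDiff ℝ ∞ (GG U) := by
  rw [GG_eq]
  exact contDiff_id.add ((ContinuousLinearMap.inl ℝ ℝ ℝ).contDiff.comp hU)

theorem fderiv_GG {U : P2 → ℝ} (hU : ContDiff ℝ ∞ U) : fderiv ℝ (GG U) =
    (fun _ => ContinuousLinearMap.id ℝ P2) +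
      (ContinuousLinearMap.compL ℝ P2 ℝ P2 (ContinuousLinearMap.inl ℝ ℝ ℝ)) ∘ (fderiv ℝ U) := by
  funext p
  have h1 : HasFDerivAt U (fderiv ℝ U p) p :=
    (hU.contDiffAt.differentiableAt (by simp)).hasFDerivAt
  have h2 := (hasFDerivAt_id (𝕜 := ℝ) p).add
    ((ContinuousLinearMap.inl ℝ ℝ ℝ).hasFDerivAt.comp p h1)
  have h3 : HasFDerivAt (GG U) (ContinuousLinearMap.id ℝ P2 +
      (ContinuousLinearMap.inl ℝ ℝ ℝ).comp (fderiv ℝ U p)) p := by
    rw [GG_eq]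
    exact h2
  exact h3.fderiv

theorem norm_compinl : ‖ContinuousLinearMap.compL ℝ P2 ℝ P2 (ContinuousLinearMap.inl ℝ ℝ ℝ)‖ ≤ 1 := by
  refine ContinuousLinearMap.opNorm_le_bound _ zero_le_one fun T => ?_
  rw [one_mul]
  refine (ContinuousLinearMap.opNorm_comp_le _ _).trans ?_
  calc _ ≤ 1 * ‖T‖ := mul_le_mul_of_nonneg_right norm_inl (norm_nonneg _)
    _ = ‖T‖ := one_mul _

theorem norm_fderiv_GG {U : P2 → ℝ} (hU : ContDiff ℝ ∞ U) (p : P2) :
    ‖fderiv ℝ (GG U) p‖ ≤ 1 + ‖fderiv ℝ U p‖ := by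
  rw [fderiv_GG hU]
  show ‖ContinuousLinearMap.id ℝ P2 + (ContinuousLinearMap.inl ℝ ℝ ℝ).comp (fderiv ℝ U p)‖ ≤ _
  refine (norm_add_le _ _).trans (add_le_add ContinuousLinearMap.norm_id_le ?_)
  refine (ContinuousLinearMap.opNorm_comp_le _ _).trans ?_
  calc _ ≤ 1 * ‖fderiv ℝ U p‖ := mul_le_mul_of_nonneg_right norm_inl (norm_nonneg _)
    _ = _ := one_mul _

theorem norm_iter_GG {U : P2 → ℝ} (hU : ContDiff ℝ ∞ U) (p : P2) (j : ℕ) (hj : 2 ≤ j) :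
    ‖iteratedFDeriv ℝ j (GG U) p‖ ≤ ‖iteratedFDeriv ℝ j U p‖ := by
  obtain ⟨k, rfl⟩ : ∃ k, j = k + 1 := ⟨j - 1, by omega⟩
  have hdU : ContDiff ℝ ∞ (fderiv ℝ U) := hU.fderiv_right (by simp)
  rw [← norm_iteratedFDeriv_fderiv, fderiv_GG hU, ← norm_iteratedFDeriv_fderiv]
  rw [iteratedFDeriv_add_apply contDiff_const.contDiffAt
    ((ContinuousLinearMap.contDiff _).comp (hdU.of_le (by exact_mod_cast le_top))).contDiffAt]
  rw [iteratedFDeriv_const_of_ne (by omega : k ≠ 0)]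
  rw [Pi.zero_apply, zero_add]
  refine (ContinuousLinearMap.norm_iteratedFDeriv_comp_left _ (N := (k : ℕ∞))
    (hdU.of_le (by exact_mod_cast le_top)).contDiffAt le_rfl).trans ?_
  calc _ ≤ 1 * ‖iteratedFDeriv ℝ k (fderiv ℝ U) p‖ :=
        mul_le_mul_of_nonneg_right norm_compinl (norm_nonneg _)
    _ = _ := one_mul _

/-- first order -/
theorem first {u U : P2 → ℝ} (hu : ContDiff ℝ ∞ u) (hU : ContDiff ℝ ∞ U)
    (hUu : ∀ p, U p + u (p.1 + U p, p.2) = 0) (p : P2) {q : ℝ} (hq4 : q ≤ 1 / 4)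
    (hq : ‖fderiv ℝ u (GG U p)‖ ≤ q) : ‖fderiv ℝ U p‖ ≤ 4 / 3 * q := by
  have hq0 : 0 ≤ q := (norm_nonneg _).trans hq
  have h1 : U = fun p => -((u ∘ GG U) p) := by
    funext p
    have := hUu p
    show U p = -(u (p.1 + U p, p.2))
    linarith
  have h2 : ‖fderiv ℝ U p‖ = ‖fderiv ℝ (u ∘ GG U) p‖ := by
    conv_lhs => rw [h1]
    rw [fderiv_fun_neg, norm_neg]
  have h3 : ‖fderiv ℝ (u ∘ GG U) p‖ ≤ q * (1 + ‖fderiv ℝ U p‖) := by
    rw [fderiv_comp p (hu.contDiffAt.differentiableAt (by simp))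
        ((GG_smooth hU).contDiffAt.differentiableAt (by simp))]
    refine (ContinuousLinearMap.opNorm_comp_le _ _).trans ?_
    exact mul_le_mul hq (norm_fderiv_GG hU p) (norm_nonneg _) hq0
  rw [← h2] at h3
  have h4 : 0 ≤ ‖fderiv ℝ U p‖ := norm_nonneg _
  nlinarith

/-- the recursive estimate -/
theorem rec_est (r : ℕ) (hr : 2 ≤ r) : ∃ C : ℝ, 0 ≤ C ∧ ∀ (u U : P2 → ℝ), ContDiff ℝ ∞ u →
    ContDiff ℝ ∞ U → (∀ p, U p + u (p.1 + U p, p.2) = 0) → NB 1 u (1 / 4) →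
    ∀ (p : P2) (A L B : ℝ), 0 ≤ A → 4 / 3 ≤ L → 
    (∀ j, 1 ≤ j → j < r → ‖iteratedFDeriv ℝ j u (GG U p)‖ ≤ A) →
    (∀ j, 2 ≤ j → j < r → ‖iteratedFDeriv ℝ j U p‖ ≤ L) →
    ‖iteratedFDeriv ℝ r u (GG U p)‖ ≤ B →
    ‖iteratedFDeriv ℝ r U p‖ ≤ 4 / 3 * (B * (4 / 3) ^ r + C * A * L ^ r) := by
  obtain ⟨C, hC0, hC⟩ := fdb r (by omega)
  refine ⟨C, hC0, ?_⟩
  intro u U hu hU hUu hu1 p A L B hA hL hj hjU hB
  have hq : ‖fderiv ℝ u (GG U p)‖ ≤ 1 / 4 := by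
    rw [← norm_iteratedFDeriv_one]
    exact hu1 _
  have hU1 := first hu hU hUu p le_rfl hq
  have hG1 : ‖fderiv ℝ (GG U) p‖ ≤ 4 / 3 := by
    refine (norm_fderiv_GG hU p).trans ?_
    linarith
  have h1 : U = fun p => -((u ∘ GG U) p) := by
    funext p
    have := hUu p
    show U p = -(u (p.1 + U p, p.2))
    linarith
  have h2 : ‖iteratedFDeriv ℝ r U p‖ = ‖iteratedFDeriv ℝ r (u ∘ GG U) p‖ := by
    conv_lhs => rw [h1]
    have : (fun p => -((u ∘ GG U) p)) = -(u ∘ GG U) := rfl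
    rw [this, iteratedFDeriv_neg_apply, norm_neg]
  have h3 := hC P2 P2 ℝ u (GG U) hu (GG_smooth hU) p A L hA (by linarith) hj (by
    intro j h1 h2
    rcases Nat.lt_or_ge j 2 with h | h
    · obtain rfl : j = 1 := by omega
      rw [norm_iteratedFDeriv_one]
      exact hG1.trans hL
    · exact (norm_iter_GG hU p j h).trans (hjU j h h2))
  rw [if_neg (by omega), ← h2] at h3
  have h4 : ‖iteratedFDeriv ℝ r u (GG U p)‖ * ‖fderiv ℝ (GG U) p‖ ^ r ≤ B * (4 / 3) ^ r :=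
    mul_le_mul hB (pow_le_pow_left₀ (norm_nonneg _) hG1 r) (by positivity)
      ((norm_nonneg _).trans hB)
  have h5 : ‖fderiv ℝ u (GG U p)‖ * ‖iteratedFDeriv ℝ r (GG U) p‖ ≤
      1 / 4 * ‖iteratedFDeriv ℝ r U p‖ :=
    mul_le_mul hq (norm_iter_GG hU p r hr) (norm_nonneg _) (by norm_num)
  linarith

/-- all orders, linear in the size -/
theorem lower (R : ℝ) (hR : 0 ≤ R) (r : ℕ) (hr : 1 ≤ r) : ∃ K : ℝ, 0 ≤ K ∧
    ∀ (u U : P2 → ℝ), ContDiff ℝ ∞ u →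
    ContDiff ℝ ∞ U → (∀ p, U p + u (p.1 + U p, p.2) = 0) → NB 1 u (1 / 4) →
    ∀ A : ℝ, 0 ≤ A → A ≤ R → (∀ j, 1 ≤ j → j ≤ r → NB j u A) → NB r U (K * A) := by
  induction r using Nat.strong_induction_on with
  | _ r ih =>
    rcases Nat.lt_or_ge r 2 with h | h
    · obtain rfl : r = 1 := by omega
      refine ⟨4 / 3, by norm_num, ?_⟩
      intro u U hu hU hUu hu1 A hA hAR hj p
      rw [norm_iteratedFDeriv_one]
      have h1 : ‖fderiv ℝ u (GG U p)‖ ≤ A := by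
        rw [← norm_iteratedFDeriv_one]; exact hj 1 le_rfl le_rfl _
      have h2 : ‖fderiv ℝ u (GG U p)‖ ≤ 1 / 4 := by
        rw [← norm_iteratedFDeriv_one]; exact hu1 _
      have h3 := first hu hU hUu p h2 le_rfl
      linarith
    · have ih' : ∀ j, ∃ K : ℝ, 0 ≤ K ∧ (1 ≤ j → j < r → ∀ (u U : P2 → ℝ), ContDiff ℝ ∞ u →
          ContDiff ℝ ∞ U → (∀ p, U p + u (p.1 + U p, p.2) = 0) → NB 1 u (1 / 4) →
          ∀ A : ℝ, 0 ≤ A → A ≤ R → (∀ i, 1 ≤ i → i ≤ j → NB i u A) → NB j U (K * A)) := by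
        intro j
        by_cases hj : 1 ≤ j ∧ j < r
        · obtain ⟨K, hK0, hK⟩ := ih j hj.2 hj.1
          exact ⟨K, hK0, fun _ _ => hK⟩
        · exact ⟨0, le_rfl, fun h1 h2 => absurd ⟨h1, h2⟩ hj⟩
      choose K hK0 hK using ih'
      obtain ⟨C, hC0, hC⟩ := rec_est r h
      set L : ℝ := 4 / 3 + ∑ j ∈ Finset.range r, K j * R with hL
      have hsum0 : 0 ≤ ∑ j ∈ Finset.range r, K j * R :=
        Finset.sum_nonneg fun j _ => mul_nonneg (hK0 j) hR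
      refine ⟨4 / 3 * ((4 / 3) ^ r + C * L ^ r), by positivity, ?_⟩
      intro u U hu hU hUu hu1 A hA hAR hj p
      have h1 := hC u U hu hU hUu hu1 p A L A hA (by linarith)
        (fun j h1 h2 => hj j h1 h2.le _) (fun j h1 h2 => by
          have h3 := hK j (by omega) h2 u U hu hU hUu hu1 A hA hAR
            (fun i hi1 hi2 => hj i hi1 (by omega)) p
          refine h3.trans ?_
          have h4 : K j * A ≤ K j * R := mul_le_mul_of_nonneg_left hAR (hK0 j)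
          have h5 : K j * R ≤ ∑ j ∈ Finset.range r, K j * R :=
            Finset.single_le_sum (f := fun j => K j * R) (fun j _ => mul_nonneg (hK0 j) hR)
              (Finset.mem_range.2 h2)
          linarith) (hj r (by omega) le_rfl _)
      refine h1.trans (le_of_eq ?_)
      ring

theorem nv_facts (hNV : S_NV) {u : P2 → ℝ} (hu : ContDiff ℝ ∞ u) (hb : ∃ c : ℝ, ∀ p, |u p| ≤ c)
    (h1 : NB 1 u (1 / 4)) : ContDiff ℝ ∞ (nv u) ∧
      ∀ p, nv u p + u (p.1 + nv u p, p.2) = 0 := by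
  obtain ⟨a, b, -⟩ := hNV.2.2.1 u hu (fun p => (h1 p).trans (by norm_num)) hb
  exact ⟨a, b⟩

theorem ei1 (hNV : S_NV) : S_EI1 := by
  have h := fun r => lower (1 / 4) (by norm_num) (r + 1) (by omega)
  choose K hK0 hK using h
  refine ⟨1 + ∑ r ∈ Finset.range 4, K r, 1 / 4, ?_, by norm_num, ?_⟩
  · have : 0 ≤ ∑ r ∈ Finset.range 4, K r := Finset.sum_nonneg fun r _ => hK0 r
    linarith
  intro u hu hb a ha0 ha hj j h1 h4
  have hu1 : NB 1 u (1 / 4) := fun p => (hj 1 le_rfl (by norm_num) p).trans ha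
  obtain ⟨hU, hUu⟩ := nv_facts hNV hu hb hu1
  obtain ⟨k, rfl⟩ : ∃ k, j = k + 1 := ⟨j - 1, by omega⟩
  intro p
  have h5 := hK k u (nv u) hu hU hUu hu1 a ha0 ha (fun i hi1 hi2 => hj i hi1 (by omega)) p
  refine h5.trans (mul_le_mul_of_nonneg_right ?_ ha0)
  have h6 : K k ≤ ∑ r ∈ Finset.range 4, K r :=
    Finset.single_le_sum (fun r _ => hK0 r) (Finset.mem_range.2 (by omega))
  linarith

theorem ei2 (hNV : S_NV) : S_EI2 := by
  intro r hr m
  set A : ℝ := max m (1 / 4) with hA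
  have hA4 : 1 / 4 ≤ A := le_max_right _ _
  have hA0 : 0 ≤ A := by linarith
  have hmA : m ≤ A := le_max_left _ _
  have h := fun j => lower A hA0 (j + 1) (by omega)
  choose K hK0 hK using h
  obtain ⟨C, hC0, hC⟩ := rec_est r hr
  set S : ℝ := ∑ j ∈ Finset.range r, K j * A with hS
  have hS0 : 0 ≤ S := Finset.sum_nonneg fun j _ => mul_nonneg (hK0 j) hA0
  set L : ℝ := 4 / 3 + S with hL
  refine ⟨S + 4 / 3 * (C * A * L ^ r), by positivity, ?_⟩
  intro u hu hb b hb0 hu1 hj hr'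
  obtain ⟨hU, hUu⟩ := nv_facts hNV hu hb hu1
  have hjA : ∀ j, 1 ≤ j → j < r → NB j u A := fun j h1 h2 p => (hj j h1 h2 p).trans hmA
  have hlow : ∀ j, 1 ≤ j → j < r → NB j (nv u) S := by
    intro j h1 h2 p
    obtain ⟨k, rfl⟩ : ∃ k, j = k + 1 := ⟨j - 1, by omega⟩
    have h5 := hK k u (nv u) hu hU hUu hu1 A hA0 le_rfl
      (fun i hi1 hi2 => hjA i hi1 (by omega)) p
    refine h5.trans ?_
    exact Finset.single_le_sum (f := fun j => K j * A) (fun j _ => mul_nonneg (hK0 j) hA0)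
      (Finset.mem_range.2 (by omega))
  constructor
  · intro p
    have h1 := hC u (nv u) hu hU hUu hu1 p A L b hA0 (by linarith)
      (fun j h1 h2 => hjA j h1 h2 _)
      (fun j h1 h2 => (hlow j (by omega) h2 p).trans (by linarith)) (hr' _)
    refine h1.trans ?_
    have h2 : (4 / 3 : ℝ) ^ (r + 1) ≤ 2 ^ (r + 1) :=
      pow_le_pow_left₀ (by norm_num) (by norm_num) _
    have h3 : 4 / 3 * (b * (4 / 3) ^ r + C * A * L ^ r) =
        (4 / 3) ^ (r + 1) * b + 4 / 3 * (C * A * L ^ r) := by ring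
    rw [h3]
    have h4 := mul_le_mul_of_nonneg_right h2 hb0
    linarith
  · intro j h1 h2 p
    refine (hlow j h1 h2 p).trans ?_
    have : 0 ≤ 4 / 3 * (C * A * L ^ r) := by positivity
    linarith

end Pool.Agent.W692.DQ

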