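import Pool.Agent.W133.DQ.StB

/-! Everything about `Psi` (assembly of the three stages). -/

set_option autoImplicit false

open scoped ContDiff
open Set Filter Topology
open Pool.Agent.W133.DQ

namespace Pool.Agent.W692.DQ

theorem NB_mono {r : ℕ} {u : P2 → ℝ} {b b' : ℝ} (h : NB r u b) (hb : b ≤ b') : NB r u b' :=
  fun p => (h p).trans hb

theorem nb_poin (hP : S_POIN) {v : P2 → ℝ} (hv : ContDiff ℝ ∞ v) (hs : SuppBox 1 1 v) {a : ℝ}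
    (ha : 0 ≤ a) (h4 : NB 4 v a) : NB 1 v (8 * a) ∧ ∀ j : ℕ, j ≤ 4 → NB j v (16 * a) := by
  have h3 := hP.1 v 1 3 a hv hs h4
  have h2 := hP.1 v 1 2 _ hv hs h3
  have h1 := hP.1 v 1 1 _ hv hs h2
  have h0 := hP.1 v 1 0 _ hv hs h1
  refine ⟨NB_mono h1 (by linarith), fun j hj => ?_⟩
  interval_cases j
  · exact NB_mono h0 (by linarith)
  · exact NB_mono h1 (by linarith)
  · exact NB_mono h2 (by linarith)
  · exact NB_mono h3 (by linarith)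
  · exact NB_mono h4 (by linarith)

theorem ev_lt (C X : ℝ) (hX : 0 < X) : ∀ᶠ a in 𝓝 (0 : ℝ), C * a < X := by
  have h : Tendsto (fun a : ℝ => C * a) (𝓝 0) (𝓝 (C * 0)) :=
    (continuous_const.mul continuous_id).tendsto 0
  rw [mul_zero] at h
  exact h.eventually (gt_mem_nhds hX)

theorem num1 {A KR CR1 KY KU1 CY1 a : ℝ} (hA0 : 0 < A) (hKR : 0 < KR) (hCR1 : 0 < CR1)
    (hKY : 0 < KY) (hKU1 : 0 < KU1) (hCY1 : 0 < CY1) (ha : 0 ≤ a) (ha1 : a ≤ 1)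
    (hAK : 128 * (KY * KU1 * KR) ≤ A)
    (d5 : (256 * KY * A * KU1 * CR1 + CY1 * (KU1 * (16 * KR / A ^ 2 + 256 * CR1)) ^ 2) * a < 1 / 8) :
    KR / A ^ 2 * (16 * a) + CR1 * (16 * a) ^ 2 ≤ (16 * KR / A ^ 2 + 256 * CR1) * a ∧
    KY * A * (KU1 * (KR / A ^ 2 * (16 * a) + CR1 * (16 * a) ^ 2)) +
      CY1 * (KU1 * (KR / A ^ 2 * (16 * a) + CR1 * (16 * a) ^ 2)) ^ 2 ≤ a / 4 := by
  have h2 : a * a ≤ a := by nlinarith
  have hbB : KR / A ^ 2 * (16 * a) + CR1 * (16 * a) ^ 2 ≤ (16 * KR / A ^ 2 + 256 * CR1) * a := by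
    have : KR / A ^ 2 * (16 * a) + CR1 * (16 * a) ^ 2 =
      (16 * KR / A ^ 2) * a + 256 * CR1 * (a * a) := by ring
    rw [this, add_mul]
    have h3 : 256 * CR1 * (a * a) ≤ 256 * CR1 * a := mul_le_mul_of_nonneg_left h2 (by positivity)
    linarith
  refine ⟨hbB, ?_⟩
  generalize hB1 : 16 * KR / A ^ 2 + 256 * CR1 = B1 at hbB d5
  have hB1pos : 0 < B1 := by rw [← hB1]; positivity
  have s1 : KY * A * (KU1 * (KR / A ^ 2 * (16 * a) + CR1 * (16 * a) ^ 2)) =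
      16 * (KY * KU1 * KR) / A * a + (256 * KY * A * KU1 * CR1) * a * a := by
    field_simp
    ring
  generalize hb : KR / A ^ 2 * (16 * a) + CR1 * (16 * a) ^ 2 = b at hbB s1 ⊢
  have hb0 : 0 ≤ b := by rw [← hb]; positivity
  have hkb : KU1 * b ≤ KU1 * B1 * a := by
    have := mul_le_mul_of_nonneg_left hbB hKU1.le
    linarith
  have s2 : CY1 * (KU1 * b) ^ 2 ≤ CY1 * (KU1 * B1) ^ 2 * a * a := by
    have h1 : (KU1 * b) ^ 2 ≤ (KU1 * B1 * a) ^ 2 := by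
      apply pow_le_pow_left₀ (by positivity) hkb
    calc CY1 * (KU1 * b) ^ 2 ≤ CY1 * (KU1 * B1 * a) ^ 2 :=
          mul_le_mul_of_nonneg_left h1 hCY1.le
      _ = _ := by ring
  have s3 : 16 * (KY * KU1 * KR) / A * a ≤ 1 / 8 * a := by
    refine mul_le_mul_of_nonneg_right ?_ ha
    rw [div_le_iff₀ hA0]
    linarith
  have s4 : ((256 * KY * A * KU1 * CR1 + CY1 * (KU1 * B1) ^ 2) * a) * a ≤ 1 / 8 * a :=
    mul_le_mul_of_nonneg_right d5.le ha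
  have s5 : ((256 * KY * A * KU1 * CR1 + CY1 * (KU1 * B1) ^ 2) * a) * a =
    (256 * KY * A * KU1 * CR1) * a * a + CY1 * (KU1 * B1) ^ 2 * a * a := by ring
  rw [s1]
  linarith

theorem num2 {A KY KU KR QY QU QR : ℝ} (hKY : 0 < KY) (hKU : 0 < KU) (hKR : 0 < KR)
    (hQY : 0 < QY) (hQU : 0 < QU) (hQR : 0 < QR) (hA0 : 0 < A) (hAQ : QY * QU * QR ≤ A)
    (hA5 : 4 * (KY * KU * KR) * (QY * QU * QR) ^ 5 ≤ A ^ 2) (r : ℕ) (hr : 4 < r) :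
    KY * QY ^ r * A * (KU * QU ^ r * (KR * QR ^ r * A ^ (2 - (r : ℤ)))) ≤ 1 / 4 := by
  obtain ⟨s, rfl⟩ : ∃ s, r = s + 5 := ⟨r - 5, by omega⟩
  have hz : A ^ (2 - ((s + 5 : ℕ) : ℤ)) = 1 / (A ^ s * A ^ 3) := by
    rw [← pow_add, one_div, ← zpow_natCast, ← zpow_neg]
    congr 1
  rw [hz]
  have e1 : KY * QY ^ (s + 5) * A * (KU * QU ^ (s + 5) * (KR * QR ^ (s + 5) *
      (1 / (A ^ s * A ^ 3)))) =
      ((KY * KU * KR) * (QY * QU * QR) ^ 5 / A ^ 2) * ((QY * QU * QR) / A) ^ s := by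
    rw [div_pow, pow_add, pow_add, pow_add]
    field_simp
    rw [mul_pow, mul_pow]
  rw [e1]
  have e2 : ((QY * QU * QR) / A) ^ s ≤ 1 := by
    apply pow_le_one₀ (by positivity)
    rw [div_le_one hA0]
    exact hAQ
  have e3 : (KY * KU * KR) * (QY * QU * QR) ^ 5 / A ^ 2 ≤ 1 / 4 := by
    rw [div_le_iff₀ (by positivity)]
    linarith
  have e4 : 0 ≤ (KY * KU * KR) * (QY * QU * QR) ^ 5 / A ^ 2 := by positivity
  calc _ ≤ ((KY * KU * KR) * (QY * QU * QR) ^ 5 / A ^ 2) * 1 :=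
        mul_le_mul_of_nonneg_left e2 e4
    _ ≤ 1 / 4 := by linarith

theorem psi (hR0 : S_R0) (hR1 : S_R1) (hR2 : S_R2) (hRLIP : S_RLIP) (hU0 : S_U0) (hU1 : S_U1)
    (hU2 : S_U2) (hULIP : S_ULIP) (hY0 : S_Y0) (hY1 : S_Y1) (hY2 : S_Y2) (hYLIP : S_YLIP)
    (hPOIN : S_POIN) (hRU : S_RU) (hYL : S_YL) (hCONJL : S_CONJL) (hGU : S_GU) : S_PSI := by
  obtain ⟨KR, hKR, hR1⟩ := hR1
  obtain ⟨KR2, QR, hKR2, hQR, hR2⟩ := hR2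
  obtain ⟨δU0, CU0, hδU0, hCU0, hU0⟩ := hU0
  obtain ⟨εU1, KU1, hεU1, hKU1, hU1⟩ := hU1
  obtain ⟨KU2, QU, δU2, hKU2, hQU, hδU2, hU2⟩ := hU2
  obtain ⟨δUL, CUL, hδUL, hCUL, hUL⟩ := hULIP
  obtain ⟨KY, hKY, hY1⟩ := hY1
  obtain ⟨KY2, QY, hKY2, hQY, hY2⟩ := hY2
  obtain ⟨A, hAbig⟩ := exists_nat_ge (1 + QY * QU * QR + 128 * (KY * KU1 * KR) +
    4 * (KY2 * KU2 * KR2) * (QY * QU * QR) ^ 5)
  have hQ1 : 1 ≤ QY * QU * QR := one_le_mul_of_one_le_of_one_le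
    (one_le_mul_of_one_le_of_one_le hQY hQU) hQR
  have hK1 : 1 ≤ KY2 * KU2 * KR2 := one_le_mul_of_one_le_of_one_le
    (one_le_mul_of_one_le_of_one_le hKY2 hKU2) hKR2
  have hKK : 0 < KY * KU1 * KR := by positivity
  have hQ5 : 0 < 4 * (KY2 * KU2 * KR2) * (QY * QU * QR) ^ 5 := by positivity
  have hA1r : (1 : ℝ) ≤ A := by linarith
  have hA1 : 1 ≤ A := by exact_mod_cast hA1r
  have hAQ : QY * QU * QR ≤ A := by linarith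
  have hAK : 128 * (KY * KU1 * KR) ≤ A := by linarith
  have hA5 : 4 * (KY2 * KU2 * KR2) * (QY * QU * QR) ^ 5 ≤ (A : ℝ) ^ 2 := by nlinarith
  have hA0 : (0 : ℝ) < A := by linarith
  obtain ⟨δR0, CR0, hδR0, hCR0, hR0⟩ := hR0 A hA1
  obtain ⟨εR1, CR1, hεR1, hCR1, hR1⟩ := hR1 A hA1
  obtain ⟨δR2, hδR2, hR2⟩ := hR2 A hA1
  obtain ⟨δRL, CRL, hδRL, hCRL, hRL⟩ := hRLIP A hA1
  obtain ⟨δY0, CY0, hδY0, hCY0, hY0⟩ := hY0 A hA1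
  obtain ⟨εY1, CY1, hεY1, hCY1, hY1⟩ := hY1 A hA1
  obtain ⟨δY2, hδY2, hY2⟩ := hY2 A hA1
  obtain ⟨δYL, CYL, hδYL, hCYL, hYLip⟩ := hYLIP A hA1
  -- stages, structure
  have hst : ∀ a : ℝ, 0 ≤ a → 8 * a < δR0 → (CR0 * 8) * a < δU0 → (CU0 * CR0 * 8) * a < δY0 →
      ∀ v : P2 → ℝ, ContDiff ℝ ∞ v → SuppBox 1 1 v → NB 4 v a →
      (ContDiff ℝ ∞ (SR A v) ∧ (∀ p : P2, SR A v (p.1 + 1, p.2) = SR A v p) ∧
        NB 1 (SR A v) ((CR0 * 8) * a) ∧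
        ∃ P ∈ LP, IsG P (dil A v)) ∧
      (ContDiff ℝ ∞ (SU (SR A v)) ∧ SuppBox 1 A (SU (SR A v)) ∧
        NB 1 (SU (SR A v)) ((CU0 * CR0 * 8) * a)) ∧
      ContDiff ℝ ∞ (Psi A v) ∧ SuppBox 1 1 (Psi A v) := by
    intro a ha h1 h2 h3 v hv hs h4
    obtain ⟨hp1, -⟩ := nb_poin hPOIN hv hs ha h4
    obtain ⟨hf1, hf2, hf3, hf4, hf5, P, hP, hPG, -, -⟩ :=
      hR0 v hv hs (8 * a) (by linarith) h1.le hp1
    have hf5' : NB 1 (SR A v) ((CR0 * 8) * a) := NB_mono hf5 (by linarith)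
    obtain ⟨hW1, hW2, hW3, hW4⟩ := hU0 (SR A v) A hf1 hf2 hf3 ((CR0 * 8) * a) (by positivity)
      h2.le hf5'
    have hW4' : NB 1 (SU (SR A v)) ((CU0 * CR0 * 8) * a) := NB_mono hW4 (by linarith)
    obtain ⟨hY01, hY02, -, -⟩ := hY0 (SU (SR A v)) hW1 hW2 ((CU0 * CR0 * 8) * a) (by positivity)
      h3.le hW4'
    exact ⟨⟨hf1, hf2, hf5', P, hP, hPG⟩, ⟨hW1, hW2, hW4'⟩, hY01, hY02⟩
  -- the small constant
  have hev : ∀ᶠ a in 𝓝 (0 : ℝ),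
      ((8 * a < δR0 ∧ (CR0 * 8) * a < δU0 ∧ (CU0 * CR0 * 8) * a < δY0) ∧
      (8 * a < δR2 ∧ (CR0 * 8) * a < δU2 ∧ (CU0 * CR0 * 8) * a < δY2) ∧
      (8 * a < δRL ∧ (CR0 * 8) * a < δUL ∧ (CU0 * CR0 * 8) * a < δYL)) ∧
      (1 * a < 1 ∧ 16 * a < εR1 ∧ (16 * KR / (A : ℝ) ^ 2 + 256 * CR1) * a < εU1 ∧
        (KU1 * (16 * KR / (A : ℝ) ^ 2 + 256 * CR1)) * a < εY1) ∧
      (256 * KY * A * KU1 * CR1 + CY1 * (KU1 * (16 * KR / (A : ℝ) ^ 2 + 256 * CR1)) ^ 2) * a < 1 / 8 :=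
    (((ev_lt _ _ hδR0).and ((ev_lt _ _ hδU0).and (ev_lt _ _ hδY0))).and
      (((ev_lt _ _ hδR2).and ((ev_lt _ _ hδU2).and (ev_lt _ _ hδY2))).and
      ((ev_lt _ _ hδRL).and ((ev_lt _ _ hδUL).and (ev_lt _ _ hδYL))))).and
      (((ev_lt _ _ one_pos).and ((ev_lt _ _ hεR1).and ((ev_lt _ _ hεU1).and
      (ev_lt _ _ hεY1)))).and (ev_lt _ _ (by norm_num)))
  obtain ⟨e, he, hev⟩ := Metric.eventually_nhds_iff.1 hev
  have hev' : ∀ a : ℝ, 0 ≤ a → a ≤ e / 2 → _ := fun a ha hae => @hev a (by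
    rw [Real.dist_eq, sub_zero, abs_of_nonneg ha]; linarith)
  have he2 : 0 < e / 2 := by linarith
  refine ⟨A, hA1, e / 2, he2, ?_, ?_, ?_, ?_, ?_⟩
  · -- structure
    intro v hv hs h4
    obtain ⟨⟨⟨c1, c2, c3⟩, -, -⟩, -, -⟩ := hev' (e / 2) he2.le le_rfl
    exact (hst (e / 2) he2.le c1 c2 c3 v hv hs h4).2.2
  · -- small regime
    intro v a hv hs ha hae h4
    obtain ⟨⟨⟨c1, c2, c3⟩, -, -⟩, ⟨d1, d2, d3, d4⟩, d5⟩ := hev' a ha hae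
    obtain ⟨⟨hf1, hf2, hf3, -⟩, ⟨hW1, hW2, hW3⟩, -, -⟩ := hst a ha c1 c2 c3 v hv hs h4
    obtain ⟨-, hp4⟩ := nb_poin hPOIN hv hs ha h4
    have e1 := hR1 v hv hs (16 * a) (by positivity) d2.le hp4
    obtain ⟨n1, n2⟩ := num1 hA0 hKR hCR1 hKY hKU1 hCY1 ha (by linarith) hAK d5
    have hb0 : 0 ≤ KR / (A : ℝ) ^ 2 * (16 * a) + CR1 * (16 * a) ^ 2 := by positivity
    have e2 := hU1 (SR A v) hf1 hf2 _ hb0 (n1.trans d3.le) e1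
    have e3 := hY1 (SU (SR A v)) hW1 hW2 (KU1 * (KR / (A : ℝ) ^ 2 * (16 * a) +
      CR1 * (16 * a) ^ 2)) (mul_nonneg hKU1.le hb0)
      ((mul_le_mul_of_nonneg_left n1 hKU1.le).trans (by rw [← mul_assoc]; exact d4.le)) e2
    exact NB_mono e3 n2
  · -- large regime
    intro r hr m
    obtain ⟨cR, hcR, hR2⟩ := hR2 r m (by omega)
    obtain ⟨cU, hcU, hU2⟩ := hU2 r cR (by omega)
    obtain ⟨cY, hcY, hY2⟩ := hY2 r cU (by omega)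
    refine ⟨KY2 * QY ^ r * A * (KU2 * QU ^ r * cR + cU) + cY, by positivity, ?_⟩
    intro v b hv hs h4 hj hb hr'
    obtain ⟨⟨⟨c1, c2, c3⟩, ⟨c4, c5, c6⟩, -⟩, -, -⟩ := hev' (e / 2) he2.le le_rfl
    obtain ⟨⟨hf1, hf2, hf3, -⟩, ⟨hW1, hW2, hW3⟩, -, -⟩ := hst (e / 2) he2.le c1 c2 c3 v hv hs h4
    obtain ⟨hp1, -⟩ := nb_poin hPOIN hv hs he2.le h4
    obtain ⟨g1, g2⟩ := hR2 v b hv hs (NB_mono hp1 c4.le) hj hb hr'
    obtain ⟨g3, g4⟩ := hU2 (SR A v) _ hf1 hf2 (NB_mono hf3 c5.le) g2 (by positivity) g1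
    obtain ⟨g5, g6⟩ := hY2 (SU (SR A v)) _ hW1 hW2 (NB_mono hW3 c6.le) g4 (by positivity) g3
    refine NB_mono g5 ?_
    have hcoef := num2 (by linarith : 0 < KY2) (by linarith : 0 < KU2) (by linarith : 0 < KR2)
      (by linarith : 0 < QY) (by linarith : 0 < QU) (by linarith : 0 < QR) hA0 hAQ hA5 r hr
    have := mul_le_mul_of_nonneg_right hcoef hb
    linarith [this]
  · -- Lipschitz
    obtain ⟨⟨⟨c1, c2, c3⟩, -, ⟨c4, c5, c6⟩⟩, -, -⟩ := hev' (e / 2) he2.le le_rfl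
    refine ⟨CYL * (CUL * CRL), ?_⟩
    intro u v hu hv hsu hsv h4u h4v d hd
    obtain ⟨⟨hf1, hf2, hf3, -⟩, ⟨hW1, hW2, hW3⟩, -, -⟩ := hst (e / 2) he2.le c1 c2 c3 v hv hsv h4v
    obtain ⟨⟨hf1', hf2', hf3', -⟩, ⟨hW1', hW2', hW3'⟩, -, -⟩ :=
      hst (e / 2) he2.le c1 c2 c3 u hu hsu h4u
    obtain ⟨hp1, -⟩ := nb_poin hPOIN hv hsv he2.le h4v
    obtain ⟨hp1', -⟩ := nb_poin hPOIN hu hsu he2.le h4u
    have g1 := hRL u v hu hv (NB_mono hp1' c4.le) (NB_mono hp1 c4.le) d hd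
    have g2 := hUL (SR A u) (SR A v) hf1' hf1 hf2' hf2 (NB_mono hf3' c5.le) (NB_mono hf3 c5.le)
      _ g1
    have g3 := hYLip (SU (SR A u)) (SU (SR A v)) hW1' hW1 hW2' hW2 (NB_mono hW3' c6.le)
      (NB_mono hW3 c6.le) _ g2
    intro p
    have := g3 p
    calc |Psi A u p - Psi A v p| ≤ CYL * (CUL * (CRL * d)) := this
      _ = _ := by ring
  · -- invariance
    intro L hL
    obtain ⟨δRU, hδRU, hRU⟩ := hRU L hL A hA1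
    obtain ⟨δYU, hδYU, hYU⟩ := hYL L hL A hA1
    have hev2 : ∀ᶠ a in 𝓝 (0 : ℝ), (8 * a < δR0 ∧ (CR0 * 8) * a < δU0 ∧
        (CU0 * CR0 * 8) * a < δY0) ∧ 8 * a < δRU ∧ (CU0 * CR0 * 8) * a < δYU ∧
        (CU0 * CR0 * 8) * a < 1 / 2 :=
      ((ev_lt _ _ hδR0).and ((ev_lt _ _ hδU0).and (ev_lt _ _ hδY0))).and
        ((ev_lt _ _ hδRU).and ((ev_lt _ _ hδYU).and (ev_lt _ _ (by norm_num))))
    obtain ⟨e', he', hev2⟩ := Metric.eventually_nhds_iff.1 hev2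
    have he2' : 0 < e' / 2 := by linarith
    obtain ⟨⟨c1, c2, c3⟩, c4, c5, c6⟩ := @hev2 (e' / 2) (by
      rw [Real.dist_eq, sub_zero, abs_of_nonneg he2'.le]; linarith)
    refine ⟨e' / 2, he2', ?_⟩
    intro v hv hs h4 P hP hPG Q hQ hQG
    obtain ⟨⟨hf1, hf2, hf3, P', hP', hPG'⟩, ⟨hW1, hW2, hW3⟩, -, -⟩ :=
      hst (e' / 2) he2'.le c1 c2 c3 v hv hs h4
    obtain ⟨hp1, -⟩ := nb_poin hPOIN hv hs he2'.le h4
    obtain ⟨Q', hQ', hQG'⟩ := hGU (SU (SR A v)) hW1 ⟨1, A, hW2⟩ (NB_mono hW3 c6.le)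
    have l1 : L P' = L P := by
      refine (hCONJL L hL).2 P (LP_le_DC hP) P' (LP_le_DC hP') A hA0 ?_
      intro p
      rw [hPG' (((A : ℕ) : ℝ) • p), hPG p]
      unfold dil
      have h1 : (((A : ℕ) : ℝ) • p).1 / A = p.1 := by
        rw [Prod.smul_fst, smul_eq_mul]; field_simp
      have h2 : (((A : ℕ) : ℝ) • p).2 / A = p.2 := by
        rw [Prod.smul_snd, smul_eq_mul]; field_simp
      rw [h1, h2]
      ext
      · simp only [Prod.smul_fst, smul_eq_mul]; ring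
      · simp only [Prod.smul_snd, smul_eq_mul]
    have l2 : L P' = L Q' := hRU v hv hs (NB_mono hp1 c4.le) P' hP' hPG' Q' hQ' hQG'
    have l3 : L Q' = L Q := hYU (SU (SR A v)) hW1 hW2 (NB_mono hW3 c5.le) Q' hQ' hQG' Q hQ hQG
    rw [← l1, l2, l3]

end Pool.Agent.W692.DQ

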