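import Pool.Agent.W133.DQ.StB
import Pool.Agent.W133.DQ.StC

/-! Straightening of the unit fields. -/

set_option autoImplicit false

open scoped ContDiff
open Set Filter Topology
open Pool.Agent.W133.DQ

namespace Pool.Agent.W692.DQ

/-- integral curves starting along a straight line -/
theorem line {X : P2 → P2} {K : NNReal} (hX : LipschitzWith K X) (c : ℝ → P2)
    (hc : ∀ s, HasDerivAt c (X (c s)) s) (v : P2) (b : ℝ) (hb : 0 ≤ b)
    (hv : ∀ u, 0 ≤ u → u ≤ b → X (c 0 + u • v) = v) : c b = c 0 + b • v := by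
  have hg : ∀ u : ℝ, HasDerivAt (fun u : ℝ => c 0 + u • v) v u := by
    intro u
    have h1 := ((hasDerivAt_id u).smul_const v).const_add (c 0)
    simpa using h1
  have h := ODE_solution_unique_of_mem_Icc_right (v := fun _ => X) (s := fun _ => univ) (K := K)
    (f := c) (g := fun u => c 0 + u • v) (a := 0) (b := b) (fun _ _ => hX.lipschitzOnWith)
    (fun u _ => (hc u).continuousAt.continuousWithinAt) (fun u _ => (hc u).hasDerivWithinAt)
    (fun _ _ => mem_univ _) (fun u _ => (hg u).continuousAt.continuousWithinAt)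
    (fun u hu => by
      have := (hg u).hasDerivWithinAt (s := Ici u)
      rw [hv u hu.1 hu.2.le]
      exact this) (fun _ _ => mem_univ _) (by simp)
  exact h ⟨hb, le_rfl⟩

theorem smooth_lip : ∃ K : ℝ, 0 ≤ K ∧ ∀ x y : ℝ,
    |Real.smoothTransition x - Real.smoothTransition y| ≤ K * |x - y| := by
  obtain ⟨K, hK⟩ := ContDiffOn.exists_lipschitzOnWith (s := Icc (0 : ℝ) 1)
    (f := Real.smoothTransition) (n := 1) (Real.smoothTransition.contDiff (n := 1)).contDiffOn
    one_ne_zero (convex_Icc 0 1) isCompact_Icc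
  refine ⟨K, K.2, fun x y => ?_⟩
  rw [← Real.smoothTransition.projIcc (x := x), ← Real.smoothTransition.projIcc (x := y)]
  have h1 := hK.dist_le_mul _ (projIcc (0 : ℝ) 1 zero_le_one x).2 _
    (projIcc (0 : ℝ) 1 zero_le_one y).2
  have h2 := abs_projIcc_sub_projIcc (h := zero_le_one (α := ℝ)) (c := x) (d := y)
  rw [Real.dist_eq, Real.dist_eq] at h1
  exact h1.trans (mul_le_mul_of_nonneg_left h2 K.2)

/-- the field on `ℝ × P2` -/
noncomputable def YF (ψ : P2 → ℝ) (e : ℝ × P2) : ℝ × P2 :=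
  (0, XF (fun p => Real.smoothTransition e.1 * ψ p) e.2)

theorem YF_smooth {ψ : P2 → ℝ} (hψ : ContDiff ℝ ∞ ψ) : ContDiff ℝ ∞ (YF ψ) := by
  have h1 : ContDiff ℝ ∞ (fun e : ℝ × P2 => Real.smoothTransition e.1 * ψ e.2) :=
    ((Real.smoothTransition.contDiff (n := ⊤)).comp contDiff_fst).mul (hψ.comp contDiff_snd)
  exact contDiff_const.prodMk ((Real.contDiff_cos.comp h1).prodMk (Real.contDiff_sin.comp h1))

theorem YF_lip {ψ : P2 → ℝ} (hψ : ContDiff ℝ ∞ ψ) {R : ℝ} (hR : ∀ p, R ≤ ‖p‖ → ψ p = 0) :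
    ∃ K : NNReal, LipschitzWith K (YF ψ) := by
  have hcs : HasCompactSupport ψ := by
    refine HasCompactSupport.intro (isCompact_closedBall (0 : P2) R) fun p hp => ?_
    apply hR
    rw [mem_closedBall_zero_iff] at hp
    exact (not_le.1 hp).le
  obtain ⟨Kψ, hKψ⟩ := ContDiff.lipschitzWith_of_hasCompactSupport hcs hψ (by simp)
  obtain ⟨B, hB⟩ := hcs.exists_bound_of_continuous hψ.continuous
  obtain ⟨Ka, hKa0, hKa⟩ := smooth_lip
  have hB0 : 0 ≤ B := (norm_nonneg _).trans (hB 0)
  have hθ : ∀ e e' : ℝ × P2, |Real.smoothTransition e.1 * ψ e.2 -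
      Real.smoothTransition e'.1 * ψ e'.2| ≤ (Ka * B + Kψ) * dist e e' := by
    intro e e'
    have h1 : Real.smoothTransition e.1 * ψ e.2 - Real.smoothTransition e'.1 * ψ e'.2 =
        (Real.smoothTransition e.1 - Real.smoothTransition e'.1) * ψ e.2 +
        Real.smoothTransition e'.1 * (ψ e.2 - ψ e'.2) := by ring
    rw [h1]
    have h2 : |e.1 - e'.1| ≤ dist e e' := by
      rw [← Real.dist_eq]; exact le_max_left _ _
    have h3 : |ψ e.2 - ψ e'.2| ≤ Kψ * dist e e' := by
      have := hKψ.dist_le_mul e.2 e'.2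
      rw [Real.dist_eq] at this
      refine this.trans (mul_le_mul_of_nonneg_left ?_ Kψ.2)
      exact le_max_right _ _
    have h4 : |(Real.smoothTransition e.1 - Real.smoothTransition e'.1) * ψ e.2| ≤
        Ka * B * dist e e' := by
      rw [abs_mul]
      calc _ ≤ (Ka * |e.1 - e'.1|) * B := by
            refine mul_le_mul (hKa _ _) (hB _) (abs_nonneg _) (by positivity)
        _ ≤ (Ka * dist e e') * B := by gcongr
        _ = _ := by ring
    have h5 : |Real.smoothTransition e'.1 * (ψ e.2 - ψ e'.2)| ≤ Kψ * dist e e' := by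
      rw [abs_mul, abs_of_nonneg (Real.smoothTransition.nonneg _)]
      calc _ ≤ 1 * |ψ e.2 - ψ e'.2| :=
            mul_le_mul_of_nonneg_right (Real.smoothTransition.le_one _) (abs_nonneg _)
        _ ≤ _ := by rw [one_mul]; exact h3
    calc _ ≤ _ := abs_add_le _ _
      _ ≤ Ka * B * dist e e' + Kψ * dist e e' := add_le_add h4 h5
      _ = _ := by ring
  refine ⟨⟨Ka * B + Kψ, by positivity⟩, LipschitzWith.of_dist_le_mul fun e e' => ?_⟩
  have h1 : dist (Real.cos (Real.smoothTransition e.1 * ψ e.2))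
      (Real.cos (Real.smoothTransition e'.1 * ψ e'.2)) ≤ (Ka * B + Kψ) * dist e e' := by
    have := Real.lipschitzWith_cos.dist_le_mul (Real.smoothTransition e.1 * ψ e.2)
      (Real.smoothTransition e'.1 * ψ e'.2)
    refine this.trans ?_
    rw [NNReal.coe_one, one_mul, Real.dist_eq]
    exact hθ e e'
  have h2 : dist (Real.sin (Real.smoothTransition e.1 * ψ e.2))
      (Real.sin (Real.smoothTransition e'.1 * ψ e'.2)) ≤ (Ka * B + Kψ) * dist e e' := by
    have := Real.lipschitzWith_sin.dist_le_mul (Real.smoothTransition e.1 * ψ e.2)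
      (Real.smoothTransition e'.1 * ψ e'.2)
    refine this.trans ?_
    rw [NNReal.coe_one, one_mul, Real.dist_eq]
    exact hθ e e'
  show dist (YF ψ e) (YF ψ e') ≤ (Ka * B + Kψ) * dist e e'
  unfold YF XF
  rw [Prod.dist_eq, Prod.dist_eq]
  refine max_le ?_ (max_le h1 h2)
  rw [dist_self]
  positivity

theorem straight (hF : S_FLOW) (hE : S_ESC) : S_STRAIGHT := by
  intro ψ R hψ hR hψR
  obtain ⟨K, hK⟩ := YF_lip hψ hψR
  obtain ⟨Φ, hΦ0, hΦadd, hΦs, hΦd⟩ := hF (ℝ × P2) (YF ψ) (YF_smooth hψ) ⟨K, hK⟩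
  -- the first coordinate is preserved
  have hfst : ∀ s t p, (Φ s (t, p)).1 = t := by
    intro s t p
    have h1 : ∀ s, HasDerivAt (fun s => (Φ s (t, p)).1) 0 s := by
      intro s
      exact (hΦd s (t, p)).fst
    have h2 := is_const_of_deriv_eq_zero (f := fun s => (Φ s (t, p)).1)
      (fun s => (h1 s).differentiableAt) (fun s => (h1 s).deriv) s 0
    have h2' : (Φ s (t, p)).1 = (Φ 0 (t, p)).1 := h2
    rw [h2', hΦ0]
    rfl
  have hpair : ∀ s t p, Φ s (t, p) = (t, (Φ s (t, p)).2) := fun s t p =>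
    Prod.ext (hfst s t p) rfl
  have hneg : ∀ s e, Φ (-s) (Φ s e) = e := by
    intro s e
    have := hΦadd (-s) s
    rw [neg_add_cancel, hΦ0] at this
    have h2 := congrArg (fun T : Equiv.Perm (ℝ × P2) => T e) this
    exact h2.symm
  have hneg' : ∀ s e, Φ s (Φ (-s) e) = e := by
    intro s e
    have := hneg (-s) e
    rwa [neg_neg] at this
  let Ψ : ℝ → ℝ → Equiv.Perm P2 := fun t s =>
    { toFun := fun p => (Φ s (t, p)).2
      invFun := fun p => (Φ (-s) (t, p)).2
      left_inv := fun p => by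
        have h1 : (t, (Φ s (t, p)).2) = Φ s (t, p) := (hpair s t p).symm
        show (Φ (-s) (t, (Φ s (t, p)).2)).2 = p
        rw [h1, hneg]
      right_inv := fun p => by
        have h1 : (t, (Φ (-s) (t, p)).2) = Φ (-s) (t, p) := (hpair (-s) t p).symm
        show (Φ s (t, (Φ (-s) (t, p)).2)).2 = p
        rw [h1, hneg'] }
  have hΨ : ∀ t s p, Ψ t s p = (Φ s (t, p)).2 := fun t s p => rfl
  have hΨ0 : ∀ t, Ψ t 0 = 1 := by
    intro t
    ext1 p
    rw [hΨ, hΦ0]; rfl
  have hΨadd : ∀ t s s', Ψ t (s + s') = Ψ t s * Ψ t s' := by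
    intro t s s'
    ext1 p
    rw [Equiv.Perm.mul_apply, hΨ, hΨ, hΨ, hΦadd, Equiv.Perm.mul_apply]
    conv_lhs => rw [hpair s' t p]
  have hΨs : ContDiff ℝ ∞ (fun q : ℝ × (ℝ × P2) => Ψ q.2.1 q.1 q.2.2) := by
    have h1 : ContDiff ℝ ∞ (fun q : ℝ × (ℝ × P2) => (Φ q.1 q.2).2) := contDiff_snd.comp hΦs
    exact h1
  have hΨd : ∀ t s p, HasDerivAt (fun s => Ψ t s p)
      (XF (fun p => Real.smoothTransition t * ψ p) (Ψ t s p)) s := by
    intro t s p
    have h1 := (hΦd s (t, p)).snd
    have h2 : (YF ψ (Φ s (t, p))).2 =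
        XF (fun p => Real.smoothTransition t * ψ p) (Ψ t s p) := by
      unfold YF
      rw [hfst]
      rfl
    rw [← h2]
    exact h1
  have hXlip : ∀ t, LipschitzWith K (XF (fun p => Real.smoothTransition t * ψ p)) := by
    intro t
    refine LipschitzWith.of_dist_le_mul fun p p' => ?_
    have h1 := hK.dist_le_mul (t, p) (t, p')
    have h2 : dist (t, p) (t, p') = dist p p' := by
      rw [Prod.dist_eq, dist_self]
      exact max_eq_right dist_nonneg
    rw [h2] at h1
    refine le_trans ?_ h1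
    exact le_max_right _ _
  have hfl : ∀ t, IsFl (XF (fun p => Real.smoothTransition t * ψ p)) (Ψ t) := by
    intro t
    refine ⟨hΨ0 t, hΨadd t, ?_, hΨd t⟩
    have h1 : ContDiff ℝ ∞ (fun q : ℝ × P2 => (q.1, (t, q.2))) :=
      contDiff_fst.prodMk (contDiff_const.prodMk contDiff_snd)
    exact hΨs.comp h1
  have hψt : ∀ t, ContDiff ℝ ∞ (fun p => Real.smoothTransition t * ψ p) := fun t =>
    contDiff_const.mul hψ
  have hψt0 : ∀ t p, R ≤ ‖p‖ → Real.smoothTransition t * ψ p = 0 := by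
    intro t p hp
    rw [hψR p hp, mul_zero]
  have hesc := fun t => hE _ R (Ψ t) (hψt t) hR (hψt0 t) (hfl t)
  have hX1 : ∀ t p, Real.smoothTransition t * ψ p = 0 →
      XF (fun p => Real.smoothTransition t * ψ p) p = (1, 0) := by
    intro t p hp
    unfold XF
    simp only [hp, Real.cos_zero, Real.sin_zero]
  -- straight motion forward
  have hfwd : ∀ t (p : P2) (b : ℝ), 0 ≤ b → (∀ u, 0 ≤ u → u ≤ b →
      Real.smoothTransition t * ψ (p.1 + u, p.2) = 0) → Ψ t b p = (p.1 + b, p.2) := by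
    intro t p b hb h
    have h1 := line (hXlip t) (fun s => Ψ t s p) (fun s => hΨd t s p) (1, 0) b hb (by
      intro u hu hub
      have h2 : Ψ t 0 p + u • ((1, 0) : P2) = (p.1 + u, p.2) := by
        rw [hΨ0]
        ext <;> simp
      show XF _ (Ψ t 0 p + u • ((1, 0) : P2)) = _
      rw [h2]
      exact hX1 t _ (h u hu hub))
    have h2 : Ψ t 0 p + b • ((1, 0) : P2) = (p.1 + b, p.2) := by
      rw [hΨ0]
      ext <;> simp
    rw [← h2]
    exact h1
  have hbwd : ∀ t (p : P2) (b : ℝ), 0 ≤ b → (∀ u, 0 ≤ u → u ≤ b →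
      Real.smoothTransition t * ψ (p.1 - u, p.2) = 0) → Ψ t (-b) p = (p.1 - b, p.2) := by
    intro t p b hb h
    have hlip : LipschitzWith K (fun q => -(XF (fun p => Real.smoothTransition t * ψ p) q)) := by
      refine LipschitzWith.of_dist_le_mul fun p p' => ?_
      rw [dist_neg_neg]
      exact (hXlip t).dist_le_mul p p'
    have h1 := line hlip (fun s => Ψ t (-s) p) (fun s => by
      have h3 := (hΨd t (-s) p).scomp s (hasDerivAt_neg s)
      have h4 : HasDerivAt (fun s => Ψ t (-s) p) ((-1 : ℝ) •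
          XF (fun p => Real.smoothTransition t * ψ p) (Ψ t (-s) p)) s := h3
      rw [neg_one_smul] at h4
      exact h4) (-1, 0) b hb (by
      intro u hu hub
      have h2 : Ψ t (-0) p + u • ((-1, 0) : P2) = (p.1 - u, p.2) := by
        rw [neg_zero, hΨ0]
        ext <;> simp [sub_eq_add_neg]
      show -(XF _ (Ψ t (-0) p + u • ((-1, 0) : P2))) = _
      rw [h2, hX1 t _ (h u hu hub)]
      ext <;> simp)
    have h2 : Ψ t (-0) p + b • ((-1, 0) : P2) = (p.1 - b, p.2) := by
      rw [neg_zero, hΨ0]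
      ext <;> simp [sub_eq_add_neg]
    rw [← h2]
    exact h1
  -- consequences
  have hR2 : ∀ (x y : ℝ), R ≤ |x| ∨ R ≤ |y| → R ≤ ‖((x, y) : P2)‖ := by
    intro x y h
    rw [Prod.norm_def]
    rcases h with h | h
    · exact h.trans (le_max_left _ _)
    · exact h.trans (le_max_right _ _)
  have hleft : ∀ t (p : P2) (b : ℝ), b ≤ 0 → p.1 ≤ -R → Ψ t b p = (p.1 + b, p.2) := by
    intro t p b hb hp
    have h1 := hbwd t p (-b) (by linarith) (by
      intro u hu _
      apply hψt0
      apply hR2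
      left
      rw [abs_of_nonpos (by linarith)]
      linarith)
    rw [neg_neg, sub_neg_eq_add] at h1
    exact h1
  have hright : ∀ t (p : P2) (b : ℝ), 0 ≤ b → R ≤ p.1 → Ψ t b p = (p.1 + b, p.2) := by
    intro t p b hb hp
    refine hfwd t p b hb ?_
    intro u hu _
    apply hψt0
    apply hR2
    left
    exact (by linarith : R ≤ p.1 + u).trans (le_abs_self _)
  have hhigh : ∀ t (p : P2) (b : ℝ), R ≤ |p.2| → Ψ t b p = (p.1 + b, p.2) := by
    intro t p b hp
    rcases le_total 0 b with hb | hb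
    · exact hfwd t p b hb fun u _ _ => hψt0 _ _ (hR2 _ _ (Or.inr hp))
    · have h1 := hbwd t p (-b) (by linarith) fun u _ _ => hψt0 _ _ (hR2 _ _ (Or.inr hp))
      rw [neg_neg, sub_neg_eq_add] at h1
      exact h1
  -- the straightening map
  let Sf : ℝ → P2 → P2 := fun t p => Ψ t (p.1 + R) (-R, p.2)
  have hSf : ∀ t p, Sf t p = Ψ t (p.1 + R) (-R, p.2) := fun t p => rfl
  have hinj : ∀ t, Function.Injective (Sf t) := by
    intro t
    have key : ∀ p q : P2, p.1 ≤ q.1 → Sf t p = Sf t q → p = q := by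
      intro p q hpq h
      have h1 : Ψ t (p.1 - q.1) (-R, p.2) = (-R, q.2) := by
        have h2 : p.1 - q.1 = -(q.1 + R) + (p.1 + R) := by ring
        rw [h2, hΨadd, Equiv.Perm.mul_apply]
        have h3 : Ψ t (p.1 + R) (-R, p.2) = Ψ t (q.1 + R) (-R, q.2) := h
        rw [h3, ← Equiv.Perm.mul_apply, ← hΨadd, neg_add_cancel, hΨ0]
        rfl
      have h2 := hleft t (-R, p.2) (p.1 - q.1) (by linarith) le_rfl
      rw [h1] at h2
      have h3 := congrArg Prod.fst h2
      have h4 := congrArg Prod.snd h2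
      simp only at h3 h4
      exact Prod.ext (by linarith) h4.symm
    intro p q h
    rcases le_total p.1 q.1 with h1 | h1
    · exact key p q h1 h
    · exact (key q p h1 h.symm).symm
  have hinvf : ∀ t T (q : P2), (Ψ t T q).1 < -R →
      Sf t ((Ψ t T q).1 - T, (Ψ t T q).2) = q := by
    intro t T q h
    rw [hSf]
    have h1 := hleft t (-R, (Ψ t T q).2) ((Ψ t T q).1 + R) (by linarith) le_rfl
    have h2 : (-R + ((Ψ t T q).1 + R), (Ψ t T q).2) = Ψ t T q := Prod.ext (by simp) rfl
    simp only at h1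
    rw [h2] at h1
    have h3 : (Ψ t T q).1 - T + R = -T + ((Ψ t T q).1 + R) := by ring
    simp only
    rw [h3, hΨadd, Equiv.Perm.mul_apply, h1, ← Equiv.Perm.mul_apply, ← hΨadd, neg_add_cancel, hΨ0]
    rfl
  have hsurj : ∀ t, Function.Surjective (Sf t) := by
    intro t q
    obtain ⟨T, -, hT⟩ := (hesc t q).2
    exact ⟨_, hinvf t T q hT⟩
  let S : ℝ → Equiv.Perm P2 := fun t => Equiv.ofBijective (Sf t) ⟨hinj t, hsurj t⟩
  have hS : ∀ t p, S t p = Ψ t (p.1 + R) (-R, p.2) := fun t p => rfl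
  have hSinv : ∀ t T (q : P2), (Ψ t T q).1 < -R →
      (S t)⁻¹ q = ((Ψ t T q).1 - T, (Ψ t T q).2) := by
    intro t T q h
    rw [Equiv.Perm.inv_eq_iff_eq]
    exact (hinvf t T q h).symm
  have hSsm : ContDiff ℝ ∞ (fun q : ℝ × P2 => S q.1 q.2) := by
    have h1 : ContDiff ℝ ∞ (fun q : ℝ × P2 => (q.2.1 + R, (q.1, ((-R, q.2.2) : P2)))) :=
      ((contDiff_fst.comp contDiff_snd).add contDiff_const).prodMk
        (contDiff_fst.prodMk (contDiff_const.prodMk (contDiff_snd.comp contDiff_snd)))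
    exact hΨs.comp h1
  have hSstraight : ∀ t (p : P2), (p.1 ≤ -R ∨ R ≤ |p.2|) → S t p = p := by
    intro t p hp
    rw [hS]
    rcases hp with hp | hp
    · rw [hleft t (-R, p.2) (p.1 + R) (by linarith) le_rfl]
      exact Prod.ext (by simp) rfl
    · rw [hhigh t (-R, p.2) (p.1 + R) hp]
      exact Prod.ext (by simp) rfl
  have hSle : ∀ t, t ≤ 0 → S t = 1 := by
    intro t ht
    ext1 p
    rw [hS]
    have h0 : ∀ q : P2, Real.smoothTransition t * ψ q = 0 := fun q => by
      rw [Real.smoothTransition.zero_of_nonpos ht, zero_mul]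
    rcases le_total 0 (p.1 + R) with hb | hb
    · rw [hfwd t (-R, p.2) _ hb fun _ _ _ => h0 _]
      exact Prod.ext (by simp) rfl
    · have h1 := hbwd t (-R, p.2) (-(p.1 + R)) (by linarith) fun _ _ _ => h0 _
      rw [neg_neg] at h1
      rw [h1]
      exact Prod.ext (by simp) rfl
  have hSge : ∀ t, 1 ≤ t → S t = S 1 := by
    intro t ht
    have h1 : ∀ p, (fun s => Ψ t s p) = fun s => Ψ 1 s p := by
      intro p
      refine ODE_solution_unique_univ (v := fun _ => XF (fun p => Real.smoothTransition 1 * ψ p))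
        (K := K) (s := fun _ => univ) (t₀ := 0) (fun _ => (hXlip 1).lipschitzOnWith) ?_ ?_ ?_
      · intro s
        refine ⟨?_, mem_univ _⟩
        have := hΨd t s p
        rw [Real.smoothTransition.one_of_one_le ht] at this
        rw [Real.smoothTransition.one]
        exact this
      · exact fun s => ⟨hΨd 1 s p, mem_univ _⟩
      · rw [hΨ0, hΨ0]
    ext1 p
    rw [hS, hS]
    exact congrFun (h1 (-R, p.2)) (p.1 + R)
  have hSadd : ∀ t (x y d : ℝ), 0 ≤ d → R ≤ (S t (x, y)).1 →
      S t (x + d, y) = ((S t (x, y)).1 + d, (S t (x, y)).2) := by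
    intro t x y d hd h
    rw [← hright t (S t (x, y)) d hd h, hS, hS]
    simp only
    rw [show x + d + R = d + (x + R) by ring, hΨadd, Equiv.Perm.mul_apply]
  refine ⟨S, hSsm, ?_, ?_, hSstraight, hSle, hSge, ?_⟩
  · rw [contDiff_iff_contDiffAt]
    rintro ⟨t₀, q₀⟩
    obtain ⟨T, -, hT⟩ := (hesc t₀ q₀).2
    have hsm : ContDiff ℝ ∞ (fun q : ℝ × P2 => Ψ q.1 T q.2) := by
      have h1 : ContDiff ℝ ∞ (fun q : ℝ × P2 => (T, (q.1, q.2))) :=
        contDiff_const.prodMk (contDiff_fst.prodMk contDiff_snd)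
      exact hΨs.comp h1
    have hopen : ∀ᶠ q : ℝ × P2 in 𝓝 (t₀, q₀), (Ψ q.1 T q.2).1 < -R := by
      have h1 : Continuous (fun q : ℝ × P2 => (Ψ q.1 T q.2).1) :=
        continuous_fst.comp hsm.continuous
      exact h1.continuousAt.eventually_lt continuousAt_const hT
    have h2 : ContDiffAt ℝ ∞ (fun q : ℝ × P2 => ((Ψ q.1 T q.2).1 - T, (Ψ q.1 T q.2).2))
        (t₀, q₀) :=
      (((contDiff_fst.comp hsm).sub contDiff_const).prodMk (contDiff_snd.comp hsm)).contDiffAt
    refine h2.congr_of_eventuallyEq ?_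
    filter_upwards [hopen] with q hq
    exact hSinv q.1 T q.2 hq
  · intro t x y
    have h1 := hΨd t (x + R) (-R, y)
    have h2 := h1.comp_add_const x R
    exact h2
  · -- the far right
    let U : ℕ → Set (ℝ × ℝ) := fun n => {q | R < (S q.1 ((n : ℝ), q.2)).1}
    have hUo : ∀ n, IsOpen (U n) := by
      intro n
      have h1 : Continuous (fun q : ℝ × ℝ => (S q.1 ((n : ℝ), q.2)).1) := by
        have h2 : Continuous (fun q : ℝ × ℝ => (q.1, (((n : ℝ), q.2) : P2))) := by fun_prop
        exact continuous_fst.comp (hSsm.continuous.comp h2)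
      exact isOpen_lt continuous_const h1
    have hUm : Monotone U := by
      intro n m hnm q hq
      have hq' : R < (S q.1 ((n : ℝ), q.2)).1 := hq
      show R < (S q.1 ((m : ℝ), q.2)).1
      have hd : (0 : ℝ) ≤ (m : ℝ) - n := by
        have : (n : ℝ) ≤ m := by exact_mod_cast hnm
        linarith
      have h1 := hSadd q.1 n q.2 ((m : ℝ) - n) hd hq'.le
      rw [add_sub_cancel] at h1
      rw [h1]
      simp only
      linarith
    have hcov : Icc (0 : ℝ) 1 ×ˢ Icc (-R) R ⊆ ⋃ n, U n := by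
      rintro ⟨t, y⟩ -
      obtain ⟨T, hT0, hT⟩ := (hesc t (-R, y)).1
      obtain ⟨n, hn⟩ := exists_nat_ge (T - R)
      rw [mem_iUnion]
      refine ⟨n, ?_⟩
      show R < (S t ((n : ℝ), y)).1
      have h0 : S t (T - R, y) = Ψ t T (-R, y) := by
        rw [hS]
        simp only
        rw [sub_add_cancel]
      have h1 := hSadd t (T - R) y ((n : ℝ) - (T - R)) (by linarith) (by rw [h0]; exact hT.le)
      rw [add_sub_cancel] at h1
      rw [h1, h0]
      simp only
      linarith
    obtain ⟨n, hn⟩ := (isCompact_Icc.prod isCompact_Icc).elim_directed_cover U hUo hcov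
      hUm.directed_le
    have hX0 : R < max (n : ℝ) (R + 1) := lt_of_lt_of_le (by linarith) (le_max_right _ _)
    have hfar : ∀ t y, R < (S t (max (n : ℝ) (R + 1), y)).1 := by
      have hmain : ∀ t y, t ∈ Icc (0 : ℝ) 1 → R < (S t (max (n : ℝ) (R + 1), y)).1 := by
        intro t y ht
        by_cases hy : y ∈ Icc (-R) R
        · have h1 : R < (S t ((n : ℝ), y)).1 := hn (mk_mem_prod ht hy)
          have h2 := hSadd t n y (max (n : ℝ) (R + 1) - n) (by
            have := le_max_left (n : ℝ) (R + 1)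
            linarith) h1.le
          rw [add_sub_cancel] at h2
          rw [h2]
          simp only
          have := le_max_left (n : ℝ) (R + 1)
          linarith
        · have h1 : R ≤ |y| := by
            by_contra h
            push Not at h
            exact hy (abs_le.1 h.le)
          rw [hSstraight t (max (n : ℝ) (R + 1), y) (Or.inr h1)]
          exact hX0
      intro t y
      rcases le_total t 0 with h | h
      · rw [hSle t h, ← hSle 0 le_rfl]
        exact hmain 0 y ⟨le_rfl, zero_le_one⟩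
      · rcases le_total t 1 with h' | h'
        · exact hmain t y ⟨h, h'⟩
        · rw [hSge t h']
          exact hmain 1 y ⟨zero_le_one, le_rfl⟩
    refine ⟨max (n : ℝ) (R + 1), hX0, hfar, ?_⟩
    intro t p hp
    have h1 := hSadd t (max (n : ℝ) (R + 1)) p.2 (p.1 - max (n : ℝ) (R + 1)) (by linarith)
      (hfar t p.2).le
    rw [add_sub_cancel] at h1
    exact h1

end Pool.Agent.W692.DQ

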